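import Mathlib
import Pool.Agent.Helper750.CT.Base
import Pool.Agent.Helper750.OC.Constr

set_option autoImplicit false

/-!
Project KD (MP_dc233e_lc): unions of copies of a countably categorical structure.
-/

namespace Pool.Agent.Y670.KD

open Pool.Agent.Helper750.DC Pool.Agent.Helper750.CT Pool.Agent.Helper750.OC

/-- The union of `k` structures (for the language `LL` with one relation symbol `Q_N` of each arity
`N`): the point `n * k + j` (where `j < k`) takes the place of the point `n` of the structure
`S j`; the relation `Q_2` says that two points are in the same part; the relation `Q_N`, `N ≥ 3`,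
holds of a tuple of points of the same part if it holds in this part; `Q_0` and `Q_1` are empty. -/
def Ud (k : ℕ) (S : ℕ → Str) : Str where
  R N xs := (N = 2 ∧ xs.getD 0 0 % k = xs.getD 1 0 % k) ∨
    (3 ≤ N ∧ (∀ x ∈ xs, x % k = xs.getD 0 0 % k) ∧
      (S (xs.getD 0 0 % k)).R N (xs.map fun x => x / k))
  F _ _ := 0

/-- The structure `A` has dimension `n`: there are `n` pairwise not autoequivalent
constructivizations, and every constructivization is autoequivalent to one of them. -/
def DimN (n : ℕ) (L : Lang) (A : Str) : Prop :=
  ∃ ν : Fin n → ℕ → ℕ, (∀ i, IsConstr L A (ν i)) ∧ (∀ i j, AutoEquiv L A (ν i) (ν j) → i = j) ∧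
    ∀ ρ, IsConstr L A ρ → ∃ i, AutoEquiv L A ρ (ν i)

/-- There are `n` computable copies of `A`, pairwise not computably isomorphic, such that every
computable copy of `A` is computably isomorphic to one of them. -/
def CopyDim (n : ℕ) (A : Str) : Prop :=
  ∃ M : Fin n → Str, (∀ i, IsComputableStr LL (M i)) ∧ (∀ i, ∃ g, IsIso LL A (M i) g) ∧
    (∀ i j, (∃ g, Computable g ∧ IsIso LL (M i) (M j) g) → i = j) ∧
    ∀ C, IsComputableStr LL C → (∃ g, IsIso LL A C g) →
      ∃ i, ∃ f, Computable f ∧ IsIso LL (M i) C f

/-- job CAT: a union of `k` copies of a structure with finitely many types has finitely many types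
(hence is countably categorical, by `ryll`) -/
def Stm_CAT : Prop := ∀ (A : Str) (k : ℕ), 0 < k →
  (∀ m, {q | ∃ x, q = tp LL A m x}.Finite) →
  ∀ m, {q | ∃ x, q = tp LL (Ud k fun _ => A) m x}.Finite

/-- job NEFF: a structure of finite dimension is not effectively infinite -/
def Stm_NEFF : Prop := ∀ (n : ℕ) (L : Lang) (A : Str), 0 < n → DimN n L A → ¬ EffInf L A

/-- job TR: from copies to constructivizations -/
def Stm_TR : Prop := ∀ (n : ℕ) (A : Str), CopyDim n A → DimN n LL A

end Pool.Agent.Y670.KD
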