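import Mathlib
import Pool.Agent.Y670.KD.Defs
import Pool.Agent.Y670.KC.Nor

set_option autoImplicit false

/-!
Unions of structures for the language with one relation symbol of each arity: isomorphisms.
-/

namespace Pool.Agent.Y670.KD

open Pool.Agent.Helper750.DC Pool.Agent.Helper750.CT Pool.Agent.Helper750.OC
open Pool.Agent.Helper941 Pool.Agent.Helper941.Zeta
open Pool.Agent.Y670.KC (md dv dm fin_case glue_comp exists_phi)

/-- isomorphism, with a permutation -/
def Is (A B : Str) (f : ℕ ≃ ℕ) : Prop := ∀ xs : List ℕ, A.R xs.length xs ↔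
  B.R xs.length (xs.map f)

theorem Is.to {A B : Str} {f : ℕ ≃ ℕ} (h : Is A B f) : IsIso LL A B f := by
  refine ⟨f.bijective, fun i xs hi => ?_, fun i xs hi => by simp [LL] at hi⟩
  have : i = xs.length := by simpa [LL] using hi
  rw [this]
  exact h xs

theorem Is.of {A B : Str} {f : ℕ → ℕ} (h : IsIso LL A B f) : Is A B (Equiv.ofBijective f h.1) :=
  fun xs => h.2.1 xs.length xs rfl

theorem Is.symm {A B : Str} {f : ℕ ≃ ℕ} (h : Is A B f) : Is B A f.symm := by
  intro xs
  have h1 := h (xs.map f.symm)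
  rw [List.length_map, List.map_map] at h1
  have h2 : (xs.map (f ∘ f.symm)) = xs := by
    conv_rhs => rw [← List.map_id xs]
    exact List.map_congr_left fun x _ => f.apply_symm_apply x
  rw [h2] at h1
  exact h1.symm

theorem Is.trans {A B C : Str} {f g : ℕ ≃ ℕ} (h : Is A B f) (h' : Is B C g) :
    Is A C (f.trans g) := by
  intro xs
  rw [h xs]
  have h1 := h' (xs.map f)
  rw [List.length_map, List.map_map] at h1
  exact h1

/-- the relations of arity less than three are empty -/
def Low (A : Str) : Prop := ∀ N < 3, ∀ xs, ¬ A.R N xs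

theorem ud_two (k : ℕ) (S : ℕ → Str) (x y : ℕ) : (Ud k S).R 2 [x, y] ↔ x % k = y % k := by
  show ((2 = 2 ∧ _) ∨ (3 ≤ 2 ∧ _)) ↔ _
  simp

theorem ud_low (k : ℕ) (S : ℕ → Str) {N : ℕ} (hN : N < 2) (xs : List ℕ) : ¬ (Ud k S).R N xs := by
  rintro (⟨h, _⟩ | ⟨h, _⟩) <;> omega

theorem ud_big {k : ℕ} {S : ℕ → Str} {N : ℕ} (hN : 3 ≤ N) (xs : List ℕ) : (Ud k S).R N xs ↔
    (∀ x ∈ xs, x % k = xs.getD 0 0 % k) ∧
      (S (xs.getD 0 0 % k)).R N (xs.map fun x => x / k) := by
  show ((N = 2 ∧ _) ∨ (3 ≤ N ∧ _)) ↔ _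
  constructor
  · rintro (⟨h, _⟩ | ⟨_, h⟩)
    · omega
    · exact h
  · exact fun h => Or.inr ⟨hN, h⟩

theorem getD_zero_mem {xs : List ℕ} (h : 3 ≤ xs.length) : xs.getD 0 0 ∈ xs := by
  cases xs with
  | nil => simp at h
  | cons a l => simp

theorem ud_iff {k j : ℕ} (hj : j < k) (S : ℕ → Str) {as : List ℕ} (h : 3 ≤ as.length) :
    (Ud k S).R as.length (as.map fun a => a * k + j) ↔ (S j).R as.length as := by
  rw [ud_big h]
  have h0 : (as.map fun a => a * k + j).getD 0 0 % k = j := by
    have hm : (as.map fun a => a * k + j).getD 0 0 ∈ as.map fun a => a * k + j :=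
      getD_zero_mem (by rw [List.length_map]; exact h)
    obtain ⟨a, _, ha⟩ := List.mem_map.1 hm
    rw [← ha, md a hj]
  have h1 : ((as.map fun a => a * k + j).map fun x => x / k) = as := by
    rw [List.map_map]
    conv_rhs => rw [← List.map_id as]
    exact List.map_congr_left fun x _ => dv x hj
  rw [h0, h1]
  constructor
  · exact fun h => h.2
  · intro h2
    refine ⟨fun x hx => ?_, h2⟩
    obtain ⟨a, _, rfl⟩ := List.mem_map.1 hx
    exact md a hj

theorem part_iff {k : ℕ} {S S' : ℕ → Str} {f : ℕ ≃ ℕ} (hf : Is (Ud k S) (Ud k S') f) (x y : ℕ) :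
    f x % k = f y % k ↔ x % k = y % k := by
  have := hf [x, y]
  rw [← ud_two k S x y, ← ud_two k S' (f x) (f y)]
  exact this.symm

/-- an isomorphism of unions permutes the parts -/
theorem exists_perm {k : ℕ} {S S' : ℕ → Str} {f : ℕ ≃ ℕ} (hf : Is (Ud k S) (Ud k S') f) :
    ∃ p : ℕ → ℕ, (∀ x, f x % k = p (x % k)) ∧ ∀ i < k, ∀ j < k, p i = p j → i = j := by
  refine ⟨fun j => f j % k, fun x => (part_iff hf _ _).2 (Nat.mod_mod x k).symm,
    fun i hi j hj h => ?_⟩
  have h2 := (part_iff hf _ _).1 h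
  rwa [Nat.mod_eq_of_lt hi, Nat.mod_eq_of_lt hj] at h2

/-- the parts of an isomorphism of unions -/
theorem part_iso {k : ℕ} (hk : 0 < k) {S S' : ℕ → Str} {f : ℕ ≃ ℕ}
    (hf : Is (Ud k S) (Ud k S') f) {p : ℕ → ℕ} (hp : ∀ x, f x % k = p (x % k))
    (hinj : ∀ i < k, ∀ j < k, p i = p j → i = j) {j : ℕ} (hj : j < k) (hl : Low (S j))
    (hl' : Low (S' (p j))) :
    ∃ g : ℕ ≃ ℕ, Is (S j) (S' (p j)) g ∧ ∀ a, g a = f (a * k + j) / k := by
  have hpj : p j < k := by
    have := hp j
    rw [Nat.mod_eq_of_lt hj] at this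
    rw [← this]
    exact Nat.mod_lt _ hk
  have e1 : ∀ a, f (a * k + j) % k = p j := fun a => by rw [hp, md a hj]
  have e2 : ∀ a, f (a * k + j) / k * k + p j = f (a * k + j) := fun a => by rw [← e1 a, dm]
  have hb : Function.Bijective fun a => f (a * k + j) / k := by
    constructor
    · intro a b h
      have h1 : f (a * k + j) = f (b * k + j) := by
        rw [← e2 a, ← e2 b]
        show f (a * k + j) / k * k + p j = f (b * k + j) / k * k + p j
        rw [show f (a * k + j) / k = f (b * k + j) / k from h]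
      have h2 := f.injective h1
      have h3 : a * k = b * k := by omega
      exact Nat.eq_of_mul_eq_mul_right hk h3
    · intro b
      obtain ⟨x, hx⟩ := f.surjective (b * k + p j)
      have h1 : f x % k = p j := by rw [hx, md b hpj]
      have h2 : x % k = j := hinj _ (Nat.mod_lt _ hk) _ hj (by rw [← hp, h1])
      refine ⟨x / k, ?_⟩
      show f (x / k * k + j) / k = b
      have h3 : x / k * k + j = x := by rw [← h2, dm]
      rw [h3, hx, dv b hpj]
  refine ⟨Equiv.ofBijective _ hb, fun xs => ?_, fun a => rfl⟩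
  by_cases h3 : 3 ≤ xs.length
  · have h4 : ((xs.map (Equiv.ofBijective _ hb)).map fun a => a * k + p j) =
        (xs.map fun a => a * k + j).map f := by
      rw [List.map_map, List.map_map]
      exact List.map_congr_left fun a _ => e2 a
    have h5 := ud_iff hpj S' (as := xs.map (Equiv.ofBijective _ hb)) (by rw [List.length_map]; exact h3)
    have h6 := hf (xs.map fun a => a * k + j)
    rw [List.length_map] at h5 h6
    rw [h4] at h5
    rw [← ud_iff hj S h3, h6, h5]
  · exact iff_of_false (hl _ (by omega) _) (hl' _ (by omega) _)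

/-- assembling an isomorphism of unions from isomorphisms of the parts -/
theorem glue_iso {k : ℕ} (hk : 0 < k) {S S' : ℕ → Str} (p : ℕ → ℕ) (hp : ∀ j < k, p j < k)
    (hinj : ∀ i < k, ∀ j < k, p i = p j → i = j) (g : ℕ → (ℕ ≃ ℕ))
    (hg : ∀ j < k, Is (S j) (S' (p j)) (g j)) :
    ∃ f : ℕ ≃ ℕ, Is (Ud k S) (Ud k S') f ∧
      ∀ x, f x = g (x % k) (x / k) * k + p (x % k) := by
  have hlt : ∀ x, x % k < k := fun x => Nat.mod_lt _ hk
  have hsurj : ∀ i < k, ∃ j < k, p j = i := by
    have h1 : Function.Injective fun j : Fin k => (⟨p j, hp j j.2⟩ : Fin k) := by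
      intro i j h
      have := hinj i i.2 j j.2 (by simpa using congrArg Fin.val h)
      exact Fin.ext this
    have h2 := Finite.surjective_of_injective h1
    intro i hi
    obtain ⟨j, hj⟩ := h2 ⟨i, hi⟩
    exact ⟨j, j.2, by simpa using congrArg Fin.val hj⟩
  set F : ℕ → ℕ := fun x => g (x % k) (x / k) * k + p (x % k) with hF
  have m1 : ∀ x, F x % k = p (x % k) := fun x => md _ (hp _ (hlt x))
  have d1 : ∀ x, F x / k = g (x % k) (x / k) := fun x => dv _ (hp _ (hlt x))
  have hb : Function.Bijective F := by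
    constructor
    · intro x y h
      have h1 : x % k = y % k := hinj _ (hlt x) _ (hlt y) (by rw [← m1, ← m1, h])
      have h2 : g (x % k) (x / k) = g (y % k) (y / k) := by rw [← d1, ← d1, h]
      rw [← h1] at h2
      have h3 := (g (x % k)).injective h2
      rw [← dm k x, ← dm k y, h1, h3]
    · intro y
      obtain ⟨j, hj, h⟩ := hsurj (y % k) (hlt y)
      refine ⟨(g j).symm (y / k) * k + j, ?_⟩
      show g (((g j).symm (y / k) * k + j) % k) (((g j).symm (y / k) * k + j) / k) * k +
        p (((g j).symm (y / k) * k + j) % k) = y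
      rw [md _ hj, dv _ hj, (g j).apply_symm_apply, h, dm]
  refine ⟨Equiv.ofBijective F hb, fun xs => ?_, fun x => rfl⟩
  show _ ↔ (Ud k S').R xs.length (xs.map F)
  by_cases h3 : 3 ≤ xs.length
  · rw [ud_big h3, ud_big h3]
    have hm := getD_zero_mem h3
    have hz : (xs.map F).getD 0 0 = F (xs.getD 0 0) := by
      cases xs with
      | nil => simp at h3
      | cons a l => simp
    set z := xs.getD 0 0 with hzdef
    rw [hz, m1]
    constructor
    · rintro ⟨h1, h2⟩
      refine ⟨fun x hx => ?_, ?_⟩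
      · obtain ⟨y, hy, rfl⟩ := List.mem_map.1 hx
        rw [m1, h1 y hy]
      · have h4 := (hg _ (hlt z) (xs.map fun x => x / k)).1 (by rw [List.length_map]; exact h2)
        rw [List.length_map, List.map_map] at h4
        convert h4 using 1
        rw [List.map_map]
        refine List.map_congr_left fun x hx => ?_
        show F x / k = g (z % k) (x / k)
        rw [d1, h1 x hx]
    · rintro ⟨h1, h2⟩
      have h5 : ∀ x ∈ xs, x % k = z % k := fun x hx => by
        have := h1 (F x) (List.mem_map.2 ⟨x, hx, rfl⟩)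
        rw [m1] at this
        exact hinj _ (hlt x) _ (hlt z) this
      refine ⟨h5, ?_⟩
      have h4 := (hg _ (hlt z) (xs.map fun x => x / k)).2 (by
        rw [List.length_map, List.map_map]
        convert h2 using 1
        rw [List.map_map]
        refine List.map_congr_left fun x hx => ?_
        show g (z % k) (x / k) = F x / k
        rw [d1, h5 x hx])
      rw [List.length_map] at h4
      exact h4
  · by_cases h2 : xs.length = 2
    · obtain ⟨x, y, rfl⟩ := List.length_eq_two.1 h2
      show (Ud k S).R 2 [x, y] ↔ (Ud k S').R 2 [F x, F y]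
      rw [ud_two, ud_two, m1, m1]
      exact ⟨fun h => by rw [h], fun h => hinj _ (hlt x) _ (hlt y) h⟩
    · exact iff_of_false (ud_low _ _ (by omega) _) (ud_low _ _ (by omega) _)

end Pool.Agent.Y670.KD
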