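import Mathlib
import Pool.Agent.Y670.KD.Uni

set_option autoImplicit false

/-!
Computable copies of unions for the language with one relation symbol of each arity.
-/

namespace Pool.Agent.Y670.KD

open Pool.Agent.Helper750.DC Pool.Agent.Helper750.CT Pool.Agent.Helper750.OC
open Pool.Agent.Helper941 Pool.Agent.Helper941.Zeta
open Pool.Agent.Y670.KC (md dv dm fin_case glue_comp exists_phi)

/-- computable structures -/
theorem comp_iff {A : Str} : IsComputableStr LL A ↔ ∃ d : ℕ × List ℕ → Bool, Computable d ∧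
    ∀ xs : List ℕ, d (xs.length, xs) = true ↔ A.R xs.length xs := by
  constructor
  · rintro ⟨⟨d, hd, h⟩, _⟩
    exact ⟨d, hd, fun xs => h _ _ rfl⟩
  · rintro ⟨d, hd, h⟩
    refine ⟨⟨d, hd, fun i xs hi => ?_⟩, ⟨fun _ => 0, Computable.const 0, fun i xs hi => by
      simp [LL] at hi⟩⟩
    have : i = xs.length := by simpa [LL] using hi
    rw [this]
    exact h xs

theorem c_listmap {r : ℕ → ℕ} (hr : Computable r) : Computable fun xs : List ℕ => xs.map r := by
  have h1 : Computable fun xs : List ℕ =>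
      (Nat.rec ([] : List ℕ) (fun n IH => IH ++ [r (xs.getD n 0)]) xs.length : List ℕ) := by
    refine Computable.nat_rec (f := fun xs : List ℕ => xs.length) (g := fun _ => ([] : List ℕ))
      (h := fun xs p => p.2 ++ [r (xs.getD p.1 0)]) Computable.list_length (Computable.const _) ?_
    have h2 : Computable fun q : List ℕ × (ℕ × List ℕ) => q.2.2 ++ [r (q.1.getD q.2.1 0)] := by
      refine Computable.list_append.comp (c_snd (c_snd c_id)) ?_
      refine Computable.list_cons.comp (hr.comp ?_) (Computable.const [])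
      exact (Primrec.list_getD 0).to_comp.comp (c_fst c_id) (c_fst (c_snd c_id))
    exact h2
  refine h1.of_eq fun xs => ?_
  have key : ∀ n ≤ xs.length, (Nat.rec ([] : List ℕ) (fun n IH => IH ++ [r (xs.getD n 0)]) n :
      List ℕ) = (xs.take n).map r := by
    intro n
    induction n with
    | zero => intro _; simp
    | succ n ih =>
      intro hn
      show _ ++ [r (xs.getD n 0)] = _
      rw [ih (by omega), List.take_add_one, List.map_append]
      congr 1
      rw [List.getD_eq_getElem?_getD, List.getElem?_eq_getElem (by omega)]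
      simp
  rw [key _ le_rfl, List.take_length]

theorem copy_part {C : Str} {k : ℕ} {S : ℕ → Str} {g : ℕ ≃ ℕ} (hg : Is (Ud k S) C g) (x y : ℕ) :
    C.R 2 [x, y] ↔ g.symm x % k = g.symm y % k := by
  have h := hg.symm [x, y]
  rw [← ud_two k S (g.symm x) (g.symm y)]
  exact h

/-- **normal form** -/
theorem normal {C : Str} (hC : IsComputableStr LL C) {k : ℕ} {S : ℕ → Str} (hk : 0 < k)
    (hS : ∀ j < k, Low (S j)) {g : ℕ ≃ ℕ} (hg : Is (Ud k S) C g) :
    ∃ D : ℕ → Str, (∀ j < k, IsComputableStr LL (D j) ∧ ∃ h : ℕ ≃ ℕ, Is (S j) (D j) h) ∧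
      ∃ h : ℕ ≃ ℕ, Is (Ud k D) C h ∧ Computable h := by
  obtain ⟨d, hd, hdC⟩ := comp_iff.1 hC
  set p : ℕ → ℕ := fun x => g.symm x % k with hp
  have hlt : ∀ x, p x < k := fun x => Nat.mod_lt _ hk
  have hpc : Computable p := by
    obtain ⟨r, hr, h'⟩ := fin_case (fun j _ => g j) k (fun j _ => Computable.const _)
    have hiff : ∀ x, ∀ j < k, d (2, [x, r (j, 0)]) = true ↔ p x = j := by
      intro x j hj
      rw [h' j hj 0]
      have h1 := hdC [x, g j]
      have h2 := copy_part hg x (g j)
      rw [g.symm_apply_apply, Nat.mod_eq_of_lt hj] at h2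
      exact h1.trans h2
    have hc : Computable fun x => sInf {j : ℕ | d (2, [x, r (j, 0)]) = true} := by
      refine c_least (P := fun x j => d (2, [x, r (j, 0)]) = true) ?_ fun x =>
        ⟨p x, (hiff x _ (hlt x)).2 rfl⟩
      refine p_of_bool (hd.comp (c_pair (c_const 2) ?_))
      exact Computable.list_cons.comp (c_fst c_id) (Computable.list_cons.comp
        (hr.comp (c_pair (c_snd c_id) (c_const 0))) (Computable.const []))
    refine hc.of_eq fun x => ?_
    have hne : {j : ℕ | d (2, [x, r (j, 0)]) = true}.Nonempty := ⟨p x, (hiff x _ (hlt x)).2 rfl⟩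
    have hm := Nat.sInf_mem hne
    have hle : sInf {j : ℕ | d (2, [x, r (j, 0)]) = true} ≤ p x :=
      Nat.sInf_le ((hiff x _ (hlt x)).2 rfl)
    exact ((hiff x _ (lt_of_le_of_lt hle (hlt x))).1 hm).symm
  have hinf : ∀ j < k, {x | p x = j}.Infinite := by
    intro j hj
    refine Set.infinite_of_injective_forall_mem (f := fun a => g (a * k + j)) ?_ ?_
    · intro a b h
      have h2 := g.injective h
      have h3 : a * k = b * k := by omega
      exact Nat.eq_of_mul_eq_mul_right hk h3
    · intro a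
      show g.symm (g (a * k + j)) % k = j
      rw [g.symm_apply_apply, md a hj]
  obtain ⟨φ, hφ, hφ2⟩ := exists_phi hpc hk hlt hinf
  have hφs : Computable φ.symm := Dim.computable_symm hφ
  let D : ℕ → Str := fun j =>
    ⟨fun N xs => 3 ≤ N ∧ C.R N (xs.map fun a => φ.symm (a * k + j)), fun _ _ => 0⟩
  have hDlow : ∀ j, Low (D j) := fun j N hN xs h => absurd h.1 (by omega)
  have hD : Is C (Ud k D) φ := by
    intro xs
    have hCg := hg.symm xs
    by_cases h3 : 3 ≤ xs.length
    · rw [ud_big h3]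
      have hm := getD_zero_mem h3
      have hz : (xs.map φ).getD 0 0 = φ (xs.getD 0 0) := by
        cases xs with
        | nil => simp at h3
        | cons a l => simp
      set z := xs.getD 0 0 with hzdef
      rw [hz, hφ2]
      have hsame : (∀ x ∈ xs, p x = p z) → ((xs.map φ).map fun x => x / k).map
          (fun a => φ.symm (a * k + p z)) = xs := by
        intro h
        rw [List.map_map, List.map_map]
        conv_rhs => rw [← List.map_id xs]
        refine List.map_congr_left fun x hx => ?_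
        show φ.symm (φ x / k * k + p z) = x
        rw [← h x hx, ← hφ2, dm, φ.symm_apply_apply]
      constructor
      · intro h
        have h1 : ∀ x ∈ xs, p x = p z := by
          have h2 := (ud_big h3 _).1 (hCg.1 h)
          have hz' : (xs.map g.symm).getD 0 0 = g.symm z := by
            rw [hzdef]
            cases xs with
            | nil => simp at h3
            | cons a l => simp
          rw [hz'] at h2
          exact fun x hx => h2.1 _ (List.mem_map.2 ⟨x, hx, rfl⟩)
        refine ⟨fun x hx => ?_, ?_⟩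
        · obtain ⟨y, hy, rfl⟩ := List.mem_map.1 hx
          rw [hφ2, h1 y hy]
        · refine ⟨h3, ?_⟩
          rw [hsame h1]
          exact h
      · rintro ⟨h1, _, h2⟩
        have h4 : ∀ x ∈ xs, p x = p z := fun x hx => by
          have := h1 (φ x) (List.mem_map.2 ⟨x, hx, rfl⟩)
          rwa [hφ2] at this
        rw [hsame h4] at h2
        exact h2
    · by_cases h2 : xs.length = 2
      · obtain ⟨x, y, rfl⟩ := List.length_eq_two.1 h2
        show C.R 2 [x, y] ↔ (Ud k D).R 2 [φ x, φ y]
        rw [ud_two, copy_part hg, hφ2, hφ2]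
      · refine iff_of_false (fun h => ud_low _ _ (by omega) _ (hCg.1 h)) (ud_low _ _ (by omega) _)
  refine ⟨D, fun j hj => ⟨?_, ?_⟩, φ.symm, hD.symm, hφs⟩
  · refine comp_iff.2 ⟨fun q => decide (3 ≤ q.1) &&
      d (q.1, q.2.map fun a => φ.symm (a * k + j)), ?_, fun xs => ?_⟩
    · have h1 : Computable fun a : ℕ => φ.symm (a * k + j) :=
        hφs.comp (c_add (c_mul c_id (c_const k)) (c_const j))
      have h2 : Computable fun q : ℕ × List ℕ => decide (3 ≤ q.1) :=
        (c_decide (p_le (c_const 3) (c_fst c_id))).of_eq fun q => by congr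
      exact Primrec.and.to_comp.comp h2 (hd.comp (c_pair (c_fst c_id)
        ((c_listmap h1).comp (c_snd c_id))))
    · show (decide (3 ≤ xs.length) && d (xs.length, xs.map fun a => φ.symm (a * k + j))) = true ↔
        3 ≤ xs.length ∧ C.R xs.length (xs.map fun a => φ.symm (a * k + j))
      have h3 := hdC (xs.map fun a => φ.symm (a * k + j))
      rw [List.length_map] at h3
      rw [Bool.and_eq_true, decide_eq_true_iff, h3]
  · have h1 := hg.trans hD
    obtain ⟨h, hh, _⟩ := part_iso hk h1 (p := fun j => j) (fun x => by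
      show φ (g x) % k = x % k
      rw [hφ2]
      show g.symm (g x) % k = x % k
      rw [g.symm_apply_apply]) (fun i _ j _ h => h) hj (hS j hj) (hDlow j)
    exact ⟨h, hh⟩

/-- the first `m` parts are `B`, the others `A` -/
def Ty (A B : Str) (m : ℕ) : ℕ → Str := fun j => if j < m then B else A

theorem ty_cases (A B : Str) (m j : ℕ) : Ty A B m j = A ∨ Ty A B m j = B := by
  unfold Ty
  by_cases h : j < m <;> simp [h]

theorem ty_low {A B : Str} (hA : Low A) (hB : Low B) (m j : ℕ) : Low (Ty A B m j) := by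
  rcases ty_cases A B m j with h | h <;> rw [h] <;> assumption

/-- the union of the parts is computable -/
theorem ty_comp {A B : Str} (hA : IsComputableStr LL A) (hB : IsComputableStr LL B) (k m : ℕ) :
    IsComputableStr LL (Ud k (Ty A B m)) := by
  obtain ⟨dA, cA, hA⟩ := comp_iff.1 hA
  obtain ⟨dB, cB, hB⟩ := comp_iff.1 hB
  have hmod : Computable fun x : ℕ => x % k :=
    (Primrec.nat_mod.to_comp).comp Computable.id (Computable.const k)
  have hdiv : Computable fun x : ℕ => x / k :=
    (Primrec.nat_div.to_comp).comp Computable.id (Computable.const k)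
  have hg : ∀ i, Computable fun q : ℕ × List ℕ => q.2.getD i 0 := fun i =>
    (Primrec.list_getD 0).to_comp.comp (c_snd c_id) (c_const i)
  -- all points in the same part
  let same : ℕ × List ℕ → Prop := fun q => q.2.map (fun x => x % k) =
    List.map (fun _ => q.2.getD 0 0 % k) q.2
  have hsame : ∀ q, same q ↔ ∀ x ∈ q.2, x % k = q.2.getD 0 0 % k := by
    intro q
    show q.2.map (fun x => x % k) = q.2.map (fun _ => q.2.getD 0 0 % k) ↔ _
    rw [List.map_inj_left]
  have csame : ComputablePred same := by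
    have h1 : Primrec fun q : ℕ × List ℕ => q.2.map (fun x => x % k) :=
      Primrec.list_map Primrec.snd (Primrec.nat_mod.comp Primrec.snd (Primrec.const k))
    have h2 : Primrec fun q : ℕ × List ℕ => q.2.map (fun _ => q.2.getD 0 0 % k) :=
      Primrec.list_map Primrec.snd (Primrec.nat_mod.comp
        ((Primrec.list_getD 0).comp (Primrec.snd.comp Primrec.fst) (Primrec.const 0))
        (Primrec.const k))
    exact ComputablePred.computable_iff.2 ⟨fun q => decide (same q),
      (Primrec.eq.comp h1 h2).decide.to_comp, by funext q; simp⟩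
  have hmap : Computable fun q : ℕ × List ℕ => (q.1, q.2.map fun x => x / k) :=
    c_pair (c_fst c_id) ((c_listmap hdiv).comp (c_snd c_id))
  have pB : ComputablePred fun q : ℕ × List ℕ => dB (q.1, q.2.map fun x => x / k) = true :=
    p_of_bool (cB.comp hmap)
  have pA : ComputablePred fun q : ℕ × List ℕ => dA (q.1, q.2.map fun x => x / k) = true :=
    p_of_bool (cA.comp hmap)
  have p1 : ComputablePred fun q : ℕ × List ℕ => q.2.getD 0 0 % k < m :=
    p_lt (hmod.comp (hg 0)) (c_const m)
  have p2 : ComputablePred fun q : ℕ × List ℕ => q.1 = 2 := p_eq (c_fst c_id) (c_const 2)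
  have p3 : ComputablePred fun q : ℕ × List ℕ => 3 ≤ q.1 := p_le (c_const 3) (c_fst c_id)
  have p4 : ComputablePred fun q : ℕ × List ℕ => q.2.getD 0 0 % k = q.2.getD 1 0 % k :=
    p_eq (hmod.comp (hg 0)) (hmod.comp (hg 1))
  have hP := p_or (p_and p2 p4) (p_and p3 (p_and csame (p_or (p_and p1 pB)
    (p_and (p_not p1) pA))))
  obtain ⟨b, hb, e⟩ := ComputablePred.computable_iff.1 hP
  refine comp_iff.2 ⟨b, hb, fun xs => ?_⟩
  have e1 := iff_of_eq (congrFun e (xs.length, xs))
  show b (xs.length, xs) = true ↔ ((xs.length = 2 ∧ xs.getD 0 0 % k = xs.getD 1 0 % k) ∨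
    (3 ≤ xs.length ∧ (∀ x ∈ xs, x % k = xs.getD 0 0 % k) ∧
    (Ty A B m (xs.getD 0 0 % k)).R xs.length (xs.map fun x => x / k)))
  have eA := hA (xs.map fun x => x / k)
  have eB := hB (xs.map fun x => x / k)
  rw [List.length_map] at eA eB
  refine e1.symm.trans ?_
  show ((xs.length = 2 ∧ xs.getD 0 0 % k = xs.getD 1 0 % k) ∨ (3 ≤ xs.length ∧
    same (xs.length, xs) ∧ ((xs.getD 0 0 % k < m ∧ dB (xs.length, xs.map fun x => x / k) = true) ∨
    (¬ xs.getD 0 0 % k < m ∧ dA (xs.length, xs.map fun x => x / k) = true)))) ↔ _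
  rw [hsame, eA, eB]
  unfold Ty
  by_cases h : xs.getD 0 0 % k < m
  · rw [if_pos h]
    simp only [h, true_and, not_true, false_and, or_false]
  · rw [if_neg h]
    simp only [h, not_false_iff, true_and, false_and, false_or]

theorem ty_zero (A B : Str) : Ty A B 0 = fun _ => A := by
  funext j
  simp [Ty]

/-- computably isomorphic -/
def CI (A B : Str) : Prop := ∃ g : ℕ ≃ ℕ, Is A B g ∧ Computable g

theorem CI.symm {A B : Str} (h : CI A B) : CI B A := by
  obtain ⟨g, hg, hc⟩ := h
  exact ⟨g.symm, hg.symm, Dim.computable_symm hc⟩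

theorem CI.trans {A B C : Str} (h : CI A B) (h' : CI B C) : CI A C := by
  obtain ⟨g, hg, hc⟩ := h
  obtain ⟨g', hg', hc'⟩ := h'
  exact ⟨g.trans g', hg.trans hg', hc'.comp hc⟩

variable {A B : Str} {k : ℕ}

theorem ty_copy (hk : 0 < k) (hAB : ∃ f : ℕ ≃ ℕ, Is A B f) (m : ℕ) :
    ∃ f : ℕ ≃ ℕ, Is (Ud k fun _ => A) (Ud k (Ty A B m)) f := by
  have h1 : ∀ j, ∃ f : ℕ ≃ ℕ, Is A (Ty A B m j) f := by
    intro j
    rcases ty_cases A B m j with h | h <;> rw [h]
    · exact ⟨Equiv.refl ℕ, fun xs => by
        have : xs.map (Equiv.refl ℕ) = xs := by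
          conv_rhs => rw [← List.map_id xs]
          exact List.map_congr_left fun _ _ => rfl
        rw [this]⟩
    · exact hAB
  choose g hg using h1
  obtain ⟨f, hf, _⟩ := glue_iso hk (S := fun _ => A) (S' := Ty A B m) (fun j => j)
    (fun j hj => hj) (fun i _ j _ h => h) g (fun j _ => hg j)
  exact ⟨f, hf⟩

theorem ty_le (hk : 0 < k) (hlA : Low A) (hlB : Low B) (hno : ¬ CI A B) {m m' : ℕ}
    (hm : m ≤ k) (h : CI (Ud k (Ty A B m)) (Ud k (Ty A B m'))) : m ≤ m' := by
  obtain ⟨f, hf, hfc⟩ := h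
  obtain ⟨p, hp, hinj⟩ := exists_perm hf
  have hmap : ∀ j < m, p j < m' := by
    intro j hj
    obtain ⟨g, hg, hg2⟩ := part_iso hk hf hp hinj (show j < k by omega) (ty_low hlA hlB m j)
      (ty_low hlA hlB m' _)
    have hgc : Computable g := by
      have hdiv : Computable fun x : ℕ => x / k :=
        (Primrec.nat_div.to_comp).comp Computable.id (Computable.const k)
      exact (hdiv.comp (hfc.comp (c_add (c_mul c_id (c_const k)) (c_const j)))).of_eq
        fun a => (hg2 a).symm
    by_contra hc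
    apply hno
    have e1 : Ty A B m j = B := by unfold Ty; simp [hj]
    have e2 : Ty A B m' (p j) = A := by unfold Ty; simp [hc]
    rw [e1, e2] at hg
    exact CI.symm ⟨g, hg, hgc⟩
  have h1 := Finset.card_le_card_of_injOn (s := Finset.range m) (t := Finset.range m') p
    (fun j hj => by
      have hj' : j < m := by simpa using hj
      simpa using hmap j hj')
    (fun i hi j hj h => hinj i (by
      have : i < m := by simpa using hi
      omega) j (by
      have : j < m := by simpa using hj
      omega) h)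
  simpa using h1

theorem ty_surj (hk : 0 < k) (hlA : Low A)
    (hdim : ∀ C, IsComputableStr LL C → (∃ f : ℕ ≃ ℕ, Is A C f) → CI A C ∨ CI B C) {C : Str}
    (hC1 : IsComputableStr LL C) (hC : ∃ g : ℕ ≃ ℕ, Is (Ud k fun _ => A) C g) :
    ∃ m ≤ k, CI (Ud k (Ty A B m)) C := by
  classical
  obtain ⟨g, hg⟩ := hC
  obtain ⟨D, hD, hDC⟩ := normal hC1 hk (S := fun _ => A) (fun j _ => hlA) hg
  let Q : Fin k → Prop := fun j => CI B (D j)
  have hQ : Fintype.card {j : Fin k // Q j} ≤ k := by
    have := Fintype.card_subtype_le Q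
    simpa using this
  set m := Fintype.card {j : Fin k // Q j} with hm
  have hcard : Fintype.card {j : Fin k // (j : ℕ) < m} = Fintype.card {j : Fin k // Q j} := by
    rw [Fintype.card_fin_lt_of_le hQ]
  obtain ⟨e⟩ : Nonempty ({j : Fin k // (j : ℕ) < m} ≃ {j : Fin k // Q j}) :=
    ⟨Fintype.equivOfCardEq hcard⟩
  let π : Equiv.Perm (Fin k) := e.extendSubtype
  let p : ℕ → ℕ := fun j => if h : j < k then π ⟨j, h⟩ else 0
  have hpj : ∀ j (h : j < k), p j = π ⟨j, h⟩ := fun j h => by simp [p, h]
  have hlt : ∀ j < k, p j < k := fun j h => by rw [hpj j h]; exact (π ⟨j, h⟩).2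
  have hinj : ∀ i < k, ∀ j < k, p i = p j → i = j := by
    intro i hi j hj h
    rw [hpj i hi, hpj j hj] at h
    have h1 := π.injective (Fin.ext h)
    simpa using h1
  have hiso : ∀ j < k, CI (Ty A B m j) (D (p j)) := by
    intro j hj
    rw [hpj j hj]
    by_cases h1 : j < m
    · have h2 : Q (π ⟨j, hj⟩) := e.extendSubtype_mem ⟨j, hj⟩ h1
      have e1 : Ty A B m j = B := by unfold Ty; simp [h1]
      rw [e1]
      exact h2
    · have h2 : ¬ Q (π ⟨j, hj⟩) := e.extendSubtype_not_mem ⟨j, hj⟩ h1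
      have e1 : Ty A B m j = A := by unfold Ty; simp [h1]
      rw [e1]
      exact (hdim _ (hD _ (π ⟨j, hj⟩).2).1 (hD _ (π ⟨j, hj⟩).2).2).resolve_right h2
  have h3 : ∀ j, ∃ g : ℕ ≃ ℕ, j < k → Is (Ty A B m j) (D (p j)) g ∧ Computable g := by
    intro j
    by_cases hj : j < k
    · obtain ⟨g, hg⟩ := hiso j hj
      exact ⟨g, fun _ => hg⟩
    · exact ⟨Equiv.refl ℕ, fun h => (hj h).elim⟩
  choose q hq using h3
  obtain ⟨f, hf, hf2⟩ := glue_iso hk (S := Ty A B m) (S' := D) p hlt hinj q
    (fun j hj => (hq j hj).1)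
  exact ⟨m, hQ, CI.trans ⟨f, hf, glue_comp hk (fun j hj => (hq j hj).2) hf2⟩ hDC⟩

/-- **`k` copies of a structure of dimension two have dimension `k + 1`** -/
theorem copyDim_ud (hk : 0 < k) (hA : IsComputableStr LL A) (hB : IsComputableStr LL B)
    (hlA : Low A) (hlB : Low B) (hAB : ∃ g, IsIso LL A B g)
    (hno : ¬ ∃ g, Computable g ∧ IsIso LL A B g)
    (hdim : ∀ C, IsComputableStr LL C → (∃ g, IsIso LL A C g) →
      (∃ f, Computable f ∧ IsIso LL A C f) ∨ ∃ f, Computable f ∧ IsIso LL B C f) :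
    CopyDim (k + 1) (Ud k fun _ => A) := by
  have hno' : ¬ CI A B := fun ⟨g, hg, hc⟩ => hno ⟨g, hc, hg.to⟩
  have hci : ∀ {X Y : Str}, (∃ f, Computable f ∧ IsIso LL X Y f) → CI X Y :=
    fun ⟨f, hc, hf⟩ => ⟨Equiv.ofBijective f hf.1, Is.of hf, hc⟩
  obtain ⟨f0, hf0⟩ := hAB
  refine ⟨fun m => Ud k (Ty A B m), fun m => ty_comp hA hB k m, fun m => ?_, fun i j h => ?_,
    fun C hC hAC => ?_⟩
  · obtain ⟨f, hf⟩ := ty_copy (k := k) hk ⟨_, Is.of hf0⟩ m
    exact ⟨f, hf.to⟩
  · have h1 := hci h
    exact Fin.ext (le_antisymm (ty_le hk hlA hlB hno' (by omega) h1)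
      (ty_le hk hlA hlB hno' (by omega) h1.symm))
  · obtain ⟨g, hg⟩ := hAC
    obtain ⟨m, hm, f, hf, hc⟩ := ty_surj (B := B) hk hlA (fun C hC ⟨f, hf⟩ => by
      rcases hdim C hC ⟨f, hf.to⟩ with h | h
      · exact Or.inl (hci h)
      · exact Or.inr (hci h)) hC ⟨_, Is.of hg⟩
    exact ⟨⟨m, by omega⟩, f, hc, hf.to⟩

end Pool.Agent.Y670.KD
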