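import Mathlib
import Pool.Agent.Y670.KD.Dim
import Pool.Agent.Helper750.OC.Final
import Pool.Agent.Helper158.FCD.Torsor

set_option autoImplicit false

/-!
Countably categorical structures of every finite computable dimension `n ≥ 2`.
-/

namespace Pool.Agent.Y670.KD

open Pool.Agent.Helper750.DC Pool.Agent.Helper750.CT Pool.Agent.Helper750.OC
open Pool.Agent.Helper158.FCD

theorem low_MC (c : List ℕ → List Bool) : Low (MC c) := by
  intro N hN xs h
  have h1 : (N - 1).unpair.2 < (N - 1).unpair.1 := h.1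
  have h2 : N - 1 = 0 ∨ N - 1 = 1 := by omega
  rcases h2 with h2 | h2
  · rw [h2, Nat.unpair_zero] at h1
    exact absurd h1 (lt_irrefl _)
  · have e : Nat.unpair 1 = (0, 1) := Nat.unpair_pair 0 1
    rw [h2, e] at h1
    omega

theorem all_dims (n : ℕ) (hn : 2 ≤ n) : ∃ (A : Str) (k : ℕ), 0 < k ∧
    (∀ m, {q | ∃ x, q = tp LL A m x}.Finite) ∧ IsComputableStr LL (Ud k fun _ => A) ∧
    CopyDim n (Ud k fun _ => A) := by
  obtain ⟨T⟩ := Pool.Agent.Helper158.FCD.torsor
  obtain ⟨k, hk, rfl⟩ : ∃ k, 0 < k ∧ n = k + 1 := ⟨n - 1, by omega, by omega⟩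
  have hA := MC_comp _ (cA_comp T)
  have hB := MC_comp _ (cB_comp T)
  have hc := ty_comp hA hB k 0
  rw [ty_zero] at hc
  exact ⟨MC (cA T), k, hk, fin_types_A T, hc, copyDim_ud hk hA hB (low_MC _) (low_MC _)
    (isoAB T) (not_isoAB T) (dichAB T)⟩

end Pool.Agent.Y670.KD
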